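import Pool.Agent.H82.Bil.Est

/-!
# The partial billiard flow does not increase volume
-/

set_option autoImplicit false

namespace Pool.Agent.H33.DH

open MeasureTheory Set Metric Filter Topology H82.Bil

open scoped ComplexConjugate ENNReal

variable {T : Table}

/-- states which arrive in `B` at time `s` inside the table -/
def Pre (T : Table) (s : ℝ) (B : Set (ℂ × Dir)) : Set (ℂ × Dir) :=
  {a | ∃ w n b, Reach T w (n + 1) a s b ∧ b ∈ B}

/-- states with word `w` at time `s` -/
def Oa (T : Table) (s : ℝ) (w : List T.ι) : Set (ℂ × Dir) :=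
  {a | ∃ n, Reach T w (n + 1) a s (Phi T w a s)}

lemma isOpen_Oa (s : ℝ) (w : List T.ι) : IsOpen (Oa T s w) := by
  rw [isOpen_iff_mem_nhds]
  rintro a ⟨n, h1⟩
  filter_upwards [h1.open_fixed] with z a1
  exact ⟨n, a1⟩

theorem vol_Pre_le (s : ℝ) {B : Set (ℂ × Dir)} (hB : MeasurableSet B) :
    volume (Pre T s B) ≤ volume B := by
  obtain ⟨u, hu⟩ := exists_surjective_nat (List T.ι)
  set O : ℕ → Set (ℂ × Dir) := fun k => Oa T s (u k) with hO
  have hmO : ∀ k, MeasurableSet (disjointed O k) :=
    fun k => MeasurableSet.disjointed (fun k => (isOpen_Oa s (u k)).measurableSet) k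
  have hsub : Pre T s B ⊆ ⋃ k, disjointed O k ∩ (PhiH T (u k) s) ⁻¹' B := by
    rintro a ⟨w, n, b, h, hb⟩
    obtain ⟨k, rfl⟩ := hu w
    have h0 : a ∈ ⋃ k, disjointed O k := by
      rw [iUnion_disjointed]
      refine mem_iUnion.2 ⟨k, n, ?_⟩
      rwa [h.eq'] at h
    obtain ⟨l, hl⟩ := mem_iUnion.1 h0
    refine mem_iUnion.2 ⟨l, hl, ?_⟩
    obtain ⟨m, hm⟩ := disjointed_subset O l hl
    rw [mem_preimage, PhiH_apply, hm.det h]
    exact hb
  calc volume (Pre T s B)
      ≤ ∑' k, volume (disjointed O k ∩ (PhiH T (u k) s) ⁻¹' B) :=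
        (measure_mono hsub).trans (measure_iUnion_le _)
    _ = ∑' k, volume (PhiH T (u k) s '' (disjointed O k) ∩ B) := by
        congr 1
        ext k
        have h1 : disjointed O k ∩ (PhiH T (u k) s) ⁻¹' B =
            (PhiH T (u k) s) ⁻¹' (PhiH T (u k) s '' (disjointed O k) ∩ B) := by
          rw [preimage_inter, (PhiH T (u k) s).preimage_image]
        rw [h1, (mp_Phi (u k) s).measure_preimage]
        exact ((((PhiH T (u k) s).measurableEmbedding.measurableSet_image).2 (hmO k)).inter
          hB).nullMeasurableSet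
    _ = volume (⋃ k, (PhiH T (u k) s '' (disjointed O k) ∩ B)) := by
        rw [measure_iUnion]
        · intro k l hkl
          rw [Function.onFun, disjoint_left]
          rintro b ⟨⟨a, ha, rfl⟩, -⟩ ⟨⟨a', ha', hab⟩, -⟩
          obtain ⟨n, h1⟩ := disjointed_subset O k ha
          obtain ⟨m, h2⟩ := disjointed_subset O l ha'
          rw [← PhiH_apply] at h1 h2
          rw [hab] at h2
          have := h1.inj h2
          subst this
          exact (disjoint_left.1 (disjoint_disjointed O hkl)) ha ha'
        · intro k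
          exact (((PhiH T (u k) s).measurableEmbedding.measurableSet_image).2 (hmO k)).inter hB
    _ ≤ volume B := measure_mono (iUnion_subset fun k => inter_subset_right)

end Pool.Agent.H33.DH
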