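import Pool.Agent.H9.DH.Spec
import Pool.Agent.H33.DH.Vol

set_option autoImplicit false

namespace Pool.Agent.H33.DH

/-- DH7a -/
theorem reachSt : H9.DH.ReachSt := fun _ s _ hS => vol_Pre_le s hS

end Pool.Agent.H33.DH
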